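import Pool.Agent.R280.OrdBanach

/-!
# Separable ordered Banach spaces with property (S): increasing order bounded sequences converge
(MP_5127fd_an, Q2: full answer, proved)

No normality of the cone is assumed. If an increasing order bounded sequence is not a Cauchy
sequence, the differences `d k` along a subsequence are bounded from below in norm. By property (S)
and the closedness of the cone there is a bounded operator `T : ℓ_∞ → X` with `T e_k = d k`
(`R280.OrdBanach.exists_operator`). Rosenthal's disjointness argument gives an infinite set `M` such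
that the vectors `T 1_A`, `A ⊆ M`, have mutual distances bounded from below. So `X` is not separable.
-/

set_option autoImplicit false

universe u

open Set Topology Filter
open scoped BoundedContinuousFunction

namespace Pool.Agent.Results.MP_5127fd_an.SeparableConverges

open Pool.Agent.R280.OrdBanach

/-- The indicator function of `A ⊆ ℕ` as an element of `ℓ_∞`. -/
noncomputable def ind (A : Set ℕ) : ℕ →ᵇ ℝ :=
  open Classical in
  BoundedContinuousFunction.ofNormedAddCommGroupDiscrete (fun j => if j ∈ A then 1 else 0) 1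
    (fun j => by split_ifs <;> simp)

lemma ind_apply_mem {A : Set ℕ} {j : ℕ} (h : j ∈ A) : ind A j = 1 := by
  unfold ind
  simp [h]

lemma ind_apply_notMem {A : Set ℕ} {j : ℕ} (h : j ∉ A) : ind A j = 0 := by
  unfold ind
  simp [h]

section
variable {X : Type u} [NormedAddCommGroup X] [NormedSpace ℝ X]

/-- Rosenthal's lemma: for a bounded operator `T` on `ℓ_∞` and functionals `φ k` of norm at most one
there is an infinite set `M` such that `φ k ∘ T` is at most `ε` on the functions in the unit ball of
`ℓ_∞` which vanish off `M \ {k}`, for all `k ∈ M`. -/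
theorem rosenthal (T : (ℕ →ᵇ ℝ) →L[ℝ] X) (φ : ℕ → (X →L[ℝ] ℝ)) (hφ : ∀ k, ‖φ k‖ ≤ 1) {ε : ℝ}
    (hε : 0 < ε) : ∃ M : Set ℕ, M.Infinite ∧ ∀ k ∈ M, ∀ f : ℕ →ᵇ ℝ, ‖f‖ ≤ 1 →
      (∀ j, j ∉ M \ {k} → f j = 0) → φ k (T f) ≤ ε := by
  by_contra hcon
  push Not at hcon
  have key : ∀ n : ℕ, ∃ N : Set ℕ, N.Infinite ∧ ∀ k ∈ N, ∀ f : ℕ →ᵇ ℝ, ‖f‖ ≤ 1 →
      (∀ j, j ∉ N → f j = 0) → φ k (T f) ≤ ‖T‖ - n * ε := by
    intro n
    induction n with
    | zero =>
      refine ⟨univ, infinite_univ, fun k _ f hf _ => ?_⟩
      have h1 : ‖T f‖ ≤ ‖T‖ * 1 := (T.le_opNorm f).trans (by gcongr)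
      have h2 : ‖φ k (T f)‖ ≤ 1 * ‖T f‖ := ((φ k).le_opNorm _).trans (by gcongr; exact hφ k)
      have h3 := le_abs_self (φ k (T f))
      rw [← Real.norm_eq_abs] at h3
      push_cast
      linarith
    | succ n ih =>
      obtain ⟨N, hN, hNb⟩ := ih
      have : Infinite N := hN.to_subtype
      obtain ⟨e⟩ : Nonempty (ℕ ↪ N) := ⟨Infinite.natEmbedding N⟩
      set P : ℕ → Set ℕ := fun p => range (fun j : ℕ => (e (Nat.pair p j) : ℕ)) with hP
      have hPinf : ∀ p, (P p).Infinite := by
        intro p
        refine infinite_range_of_injective ?_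
        intro i j hij
        have h1 : e (Nat.pair p i) = e (Nat.pair p j) := Subtype.ext hij
        have h2 := e.injective h1
        have h3 := congrArg Nat.unpair h2
        simpa using h3
      have hPN : ∀ p, P p ⊆ N := by
        rintro p _ ⟨j, rfl⟩
        exact (e _).2
      have hPd : ∀ p q j, j ∈ P p → j ∈ P q → p = q := by
        rintro p q _ ⟨i, rfl⟩ ⟨j, hj⟩
        have h1 : e (Nat.pair q j) = e (Nat.pair p i) := Subtype.ext hj
        have h2 := e.injective h1
        have h3 := congrArg Nat.unpair h2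
        simp only [Nat.unpair_pair, Prod.mk.injEq] at h3
        exact h3.1.symm
      choose k hk f hf hf0 hfε using fun p => hcon (P p) (hPinf p)
      have hkinj : Function.Injective k := by
        intro p q hpq
        exact hPd p q (k p) (hk p) (hpq ▸ hk q)
      refine ⟨range k, infinite_range_of_injective hkinj, ?_⟩
      rintro _ ⟨p, rfl⟩ g hg hg0
      have hdisj : ∀ j, f p j = 0 ∨ g j = 0 := by
        intro j
        by_cases hj : j ∈ range k
        · left
          apply hf0 p j
          rintro ⟨h1, h2⟩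
          obtain ⟨q, rfl⟩ := hj
          have := hPd p q _ h1 (hk q)
          subst this
          exact h2 rfl
        · right; exact hg0 j hj
      have hsum : ‖g + f p‖ ≤ 1 := by
        rw [BoundedContinuousFunction.norm_le zero_le_one]
        intro j
        rw [BoundedContinuousFunction.coe_add, Pi.add_apply]
        rcases hdisj j with h | h
        · rw [h, add_zero]; exact (g.norm_coe_le_norm j).trans hg
        · rw [h, zero_add]; exact ((f p).norm_coe_le_norm j).trans (hf p)
      have h1 := hNb (k p) (hPN p (hk p)) (g + f p) hsum (by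
        intro j hj
        rw [BoundedContinuousFunction.coe_add, Pi.add_apply]
        have h2 : j ∉ range k := by
          rintro ⟨q, rfl⟩
          exact hj (hPN q (hk q))
        have h3 : j ∉ P p \ {k p} := fun h => hj (hPN p h.1)
        rw [hg0 j h2, hf0 p j h3, add_zero])
      rw [map_add, map_add] at h1
      have h2 := hfε p
      push_cast
      linarith
  obtain ⟨n, hn⟩ := exists_nat_gt (‖T‖ / ε)
  obtain ⟨N, hN, hNb⟩ := key n
  obtain ⟨k, hk⟩ := hN.nonempty
  have h1 := hNb k hk 0 (by simp) (fun _ _ => rfl)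
  rw [map_zero, map_zero] at h1
  rw [div_lt_iff₀ hε] at hn
  linarith

/-- A bounded operator from `ℓ_∞` to a separable space sends the unit vectors to a sequence that is not
bounded away from zero. -/
theorem not_separated [TopologicalSpace.SeparableSpace X] (T : (ℕ →ᵇ ℝ) →L[ℝ] X) {δ : ℝ}
    (hδ : 0 < δ) : ¬ ∀ k, δ ≤ ‖T (ind {k})‖ := by
  intro h
  have hφ : ∀ k, ∃ φ : X →L[ℝ] ℝ, ‖φ‖ ≤ 1 ∧ φ (T (ind {k})) = ‖T (ind {k})‖ := by
    intro k
    obtain ⟨g, hg, hg2⟩ := exists_dual_vector'' ℝ (T (ind {k}))
    exact ⟨g, hg, by simpa using hg2⟩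
  choose φ hφ1 hφ2 using hφ
  obtain ⟨M, hM, hMb⟩ := rosenthal T φ hφ1 (half_pos hδ)
  have hone : ∀ (A B : Set ℕ) (k : ℕ), A ⊆ M → B ⊆ M → k ∈ A → k ∉ B →
      δ / 2 ≤ dist (T (ind A)) (T (ind B)) := by
    intro A B k hA hB hkA hkB
    set f : ℕ →ᵇ ℝ := ind B - ind A + ind {k} with hf
    have hfv : ∀ j, f j = ind B j - ind A j + ind {k} j := fun j => rfl
    have h1 := hMb k (hA hkA) f (by
      rw [BoundedContinuousFunction.norm_le zero_le_one]
      intro j
      rw [hfv]
      by_cases hjk : j = k
      · subst hjk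
        rw [ind_apply_notMem hkB, ind_apply_mem hkA, ind_apply_mem (mem_singleton j)]
        norm_num
      · rw [ind_apply_notMem (A := {k}) hjk]
        by_cases hjA : j ∈ A <;> by_cases hjB : j ∈ B <;>
          simp [ind_apply_mem, ind_apply_notMem, hjA, hjB])
      (by
      intro j hj
      rw [hfv]
      by_cases hjk : j = k
      · subst hjk
        rw [ind_apply_notMem hkB, ind_apply_mem hkA, ind_apply_mem (mem_singleton j)]
        norm_num
      · have hjM : j ∉ M := fun h => hj ⟨h, hjk⟩
        rw [ind_apply_notMem (A := {k}) hjk, ind_apply_notMem (fun h => hjM (hA h)),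
          ind_apply_notMem (fun h => hjM (hB h))]
        norm_num)
    have h2 : T f = T (ind B) - T (ind A) + T (ind {k}) := by
      rw [hf, map_add, map_sub]
    rw [h2, map_add, hφ2] at h1
    have h3 : ‖φ k (T (ind B) - T (ind A))‖ ≤ 1 * ‖T (ind B) - T (ind A)‖ :=
      ((φ k).le_opNorm _).trans (by gcongr; exact hφ1 k)
    have h4 := neg_abs_le (φ k (T (ind B) - T (ind A)))
    rw [← Real.norm_eq_abs] at h4
    have h5 := h k
    rw [dist_comm, dist_eq_norm]
    linarith
  have hsep : ∀ A B : Set M, A ≠ B →
      δ / 2 ≤ dist (T (ind ((↑) '' A))) (T (ind ((↑) '' B))) := by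
    intro A B hAB
    have hne : ∃ x : M, (x ∈ A ∧ x ∉ B) ∨ (x ∈ B ∧ x ∉ A) := by
      by_contra hc
      push Not at hc
      apply hAB
      ext x
      exact ⟨fun hx => by_contra fun h => h ((hc x).1 hx), fun hx => by_contra fun h => h ((hc x).2 hx)⟩
    have hmem : ∀ (C : Set M) (x : M), (x : ℕ) ∈ ((↑) '' C : Set ℕ) ↔ x ∈ C := by
      intro C x
      constructor
      · rintro ⟨y, hy, hyx⟩
        rwa [← Subtype.ext hyx]
      · intro hx; exact ⟨x, hx, rfl⟩
    have hsub : ∀ C : Set M, ((↑) '' C : Set ℕ) ⊆ M := by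
      rintro C _ ⟨y, _, rfl⟩
      exact y.2
    obtain ⟨x, h | h⟩ := hne
    · exact hone _ _ x (hsub A) (hsub B) ((hmem A x).2 h.1) (fun hx => h.2 ((hmem B x).1 hx))
    · rw [dist_comm]
      exact hone _ _ x (hsub B) (hsub A) ((hmem B x).2 h.1) (fun hx => h.2 ((hmem A x).1 hx))
  have hcount : Countable (Set M) := by
    have hd : Pairwise (Function.onFun Disjoint fun A : Set M =>
        Metric.ball (T (ind ((↑) '' A))) (δ / 4)) := by
      intro A B hAB
      simp only [Function.onFun]
      apply Metric.ball_disjoint_ball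
      have := hsep A B hAB
      linarith
    exact hd.countable_of_isOpen_disjoint (fun A => Metric.isOpen_ball)
      (fun A => ⟨_, Metric.mem_ball_self (by linarith)⟩)
  have : Infinite M := hM.to_subtype
  obtain ⟨g, hg⟩ := exists_injective_nat (Set M)
  obtain ⟨e⟩ : Nonempty (ℕ ↪ M) := ⟨Infinite.natEmbedding M⟩
  exact Function.cantor_injective (fun A : Set M => e (g A)) (fun A B h => hg (e.injective h))

end

/-- **Q2.** Let `X` be a separable real Banach space ordered by the closed cone `K`. If every
increasing order bounded sequence in `X` has a supremum, then every increasing order bounded sequence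
in `X` converges in norm. (The cone is not assumed to be normal or generating.) -/
theorem result (X : Type u) [NormedAddCommGroup X] [NormedSpace ℝ X] [CompleteSpace X]
    [TopologicalSpace.SeparableSpace X] (K : Set X) (hK : IsClosedCone K) (hS : PropertyS K)
    (v : ℕ → X) (hv : IsIncreasing K v) (hb : IsOrderBounded K v) :
    ∃ x : X, Tendsto v atTop (𝓝 x) := by
  apply cauchySeq_tendsto_of_complete
  by_contra hcon
  rw [Metric.cauchySeq_iff'] at hcon
  push Not at hcon
  obtain ⟨δ, hδ, hfar⟩ := hcon
  choose m hm hmd using hfar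
  -- the subsequence
  let s : ℕ → ℕ := fun k => m^[k] 0
  have hs : ∀ k, s (k + 1) = m (s k) := fun k => Function.iterate_succ_apply' m k 0
  have hmono : ∀ k, s k ≤ s (k + 1) := fun k => by rw [hs]; exact hm (s k)
  obtain ⟨a, b, hab⟩ := hb
  set d : ℕ → X := fun k => v (s (k + 1)) - v (s k) with hd
  have hdK : ∀ k, d k ∈ K := fun k => hv.mono hK (hmono k)
  have hsum : ∀ n, ∑ k ∈ Finset.range n, d k = v (s n) - v (s 0) := by
    intro n
    exact Finset.sum_range_sub (fun k => v (s k)) n
  obtain ⟨T, hT⟩ := exists_operator hK hS (d := d) hdK (y := b - v (s 0)) (by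
    intro n
    rw [hsum]
    have := (hab (s n)).2
    unfold Le at this ⊢
    convert this using 1
    abel)
  refine not_separated T hδ fun k => ?_
  rw [hT k (ind {k}) (ind_apply_mem (mem_singleton k)) (fun j hj => ind_apply_notMem hj)]
  have := hmd (s k)
  rw [dist_eq_norm, ← hs] at this
  exact this

end Pool.Agent.Results.MP_5127fd_an.SeparableConverges
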